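import Pool.Agent.H64.MN.Leo
import Pool.Agent.H44.NR.Pdj
import Pool.Agent.H79.PJ.RIter

/-!
# The images of a disc centred in the Julia set have a diameter bounded from below, eventually and uniformly

`per_hit`: a periodic point which is not critical is in `f^n O` for all large `n` (`O` open, meeting the Julia set): `exc_fin` for `f^k` (`exists_iter`) and `f^i O`, `i < k`; a point of an exceptional set has a finite backward orbit under `f`, so it is critical (`bwd_fin`).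
`lo`: two such periodic points (`per_dense`, `js_perfect`).
-/

set_option autoImplicit false

open Filter Topology Polynomial Metric Set

namespace Pool.Agent.H11.MX

open Pool.Agent.H44.Fatou (rat rat_continuous)
open Pool.Agent.H32.BT Pool.Agent.H79.Eul Pool.Agent.H79.Par Pool.Agent.H79.ES
open Pool.Agent.H44.RC Pool.Agent.H47.RJ Pool.Agent.H44.RR
open Pool.Agent.H47.NM Pool.Agent.H47.NN Pool.Agent.H57.CF Pool.Agent.H44.ND
open Pool.Agent.H35.EX (chord chord_pos chord_comm)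
open Pool.Agent.H56.HR (FS EqAt)

variable {d : ℕ} {u : E d}

/-- a point with a finite backward orbit is critical -/
theorem fin_crit (hd : 2 ≤ d) (hcop : IsCoprime (pol u.1) (pol u.2))
    (hdeg : max (pol u.1).natDegree (pol u.2).natDegree = d) {p : OnePoint ℂ}
    (h : {z | ∃ n : ℕ, (Rf u)^[n] z = p}.Finite) : IsCrit (Rf u) p := by
  refine (bwd_fin hd hcop hdeg h ?_).2 p ⟨0, rfl⟩
  rintro x ⟨n, hn⟩
  exact ⟨n + 1, by rw [Function.iterate_succ_apply]; exact hn⟩

theorem per_hit (hd : 2 ≤ d) (hcop : IsCoprime (pol u.1) (pol u.2))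
    (hdeg : max (pol u.1).natDegree (pol u.2).natDegree = d) {p : OnePoint ℂ} (hc : ¬ IsCrit (Rf u) p) {k : ℕ}
    (hk : 1 ≤ k) (hp : (Rf u)^[k] p = p) {O : Set (OnePoint ℂ)} (hO : IsOpen O) (hJ : (O ∩ JS (Rf u)).Nonempty) :
    ∃ n0 : ℕ, ∀ n ≥ n0, ∃ z ∈ O, (Rf u)^[n] z = p := by
  have hf : Continuous (Rf u) := rat_continuous hcop
  obtain ⟨V, hVc, hVd, hV⟩ := Pool.Agent.H79.PJ.exists_iter (by omega) hcop hdeg k
  have hVf : Rf V = (Rf u)^[k] := funext hV
  have hdk : 2 ≤ d ^ k := hd.trans (Nat.le_self_pow (by omega) d)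
  have hJV : ∀ x ∈ JS (Rf u), x ∈ JS (Rf V) := by
    intro x hx h
    rw [hVf] at h
    exact hx (Pool.Agent.H66.UX.fs_pow hf hk h)
  have hJi : ∀ y ∈ JS (Rf u), Rf u y ∈ JS (Rf u) := Pool.Agent.H64.PF.js_inv hd hcop hdeg
  have hit : ∀ (n : ℕ), ∀ y ∈ JS (Rf u), (Rf u)^[n] y ∈ JS (Rf u) := by
    intro n
    induction n with
    | zero => exact fun y hy => hy
    | succ n ih =>
      intro y hy
      rw [Function.iterate_succ_apply']
      exact hJi _ (ih y hy)
  have hsurj : Function.Surjective (Rf u) := rf_surj (by omega) hcop hdeg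
  have hop : IsOpenMap (Rf u) := rat_open hcop (by rw [hdeg]; omega)
  have hopj : ∀ j : ℕ, IsOpenMap ((Rf u)^[j]) := by
    intro j
    induction j with
    | zero => exact IsOpenMap.id
    | succ j ih =>
      rw [Function.iterate_succ]
      exact ih.comp hop
  have key : ∀ i : ℕ, ∃ j : ℕ, ∃ z ∈ O, (Rf u)^[k * j + i] z = p := by
    intro i
    have hT := exc_fin hdk hVc hVd (B := (Rf u)^[i] '' O) (hopj i O hO) (by
      obtain ⟨y, hy, hyJ⟩ := hJ
      exact ⟨_, ⟨y, hy, rfl⟩, hJV _ (hit i y hyJ)⟩)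
    by_contra hcon
    push Not at hcon
    have hpT : ∀ (m : ℕ) (w : OnePoint ℂ), (Rf V)^[m] w = p → ∀ j : ℕ, w ∉ (Rf V)^[j] '' ((Rf u)^[i] '' O) := by
      intro m w hw j hj
      obtain ⟨_, ⟨z, hz, rfl⟩, rfl⟩ := hj
      apply hcon (m + j) z hz
      rw [← hw, hVf, ← Function.iterate_mul, ← Function.iterate_mul, ← Function.iterate_add_apply,
        ← Function.iterate_add_apply]
      congr 1
      ring
    apply hc
    refine fin_crit hd hcop hdeg ((((Set.finite_Iio k).biUnion fun l _ => hT.image (Rf u)^[l])).subset ?_)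
    rintro z ⟨n, hn⟩
    obtain ⟨l, m, hl, hlm⟩ : ∃ l m : ℕ, l < k ∧ n + l = k * m := by
      refine ⟨(k - n % k) % k, (n + (k - n % k) % k) / k, Nat.mod_lt _ (by omega), ?_⟩
      refine (Nat.mul_div_cancel' (Nat.dvd_of_mod_eq_zero ?_)).symm
      have h1 : n % k < k := Nat.mod_lt _ (by omega)
      rw [Nat.add_mod, Nat.mod_mod, ← Nat.add_mod]
      have h2 : n + (k - n % k) = k * (n / k + 1) := by
        have h3 := Nat.mod_add_div n k
        have h4 : k * (n / k + 1) = k * (n / k) + k := by ring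
        omega
      rw [h2]
      exact Nat.mul_mod_right _ _
    obtain ⟨w, hw⟩ := hsurj.iterate l z
    rw [mem_iUnion₂]
    refine ⟨l, hl, w, ?_, hw⟩
    refine hpT m w ?_
    rw [hVf, ← Function.iterate_mul, ← hlm, Function.iterate_add_apply, hw, hn]
  choose j z hz hj using key
  refine ⟨k * ((Finset.range k).sup j + 1), fun n hn => ⟨z (n % k), hz _, ?_⟩⟩
  have h1 : j (n % k) ≤ n / k := by
    have h2 : j (n % k) ≤ (Finset.range k).sup j :=
      Finset.le_sup (f := j) (Finset.mem_range.2 (Nat.mod_lt _ (by omega)))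
    have h3 : (Finset.range k).sup j + 1 ≤ n / k := (Nat.le_div_iff_mul_le (by omega)).2 (by rw [mul_comm]; exact hn)
    omega
  obtain ⟨t, ht⟩ := Nat.exists_eq_add_of_le h1
  have h2 : n = k * t + (k * j (n % k) + n % k) := by
    have h3 := Nat.mod_add_div n k
    have h4 : k * (n / k) = k * j (n % k) + k * t := by
      rw [ht]
      ring
    omega
  have h5 : (Rf u)^[k * t] p = p := by
    rw [Function.iterate_mul]
    exact Function.iterate_fixed hp t
  calc (Rf u)^[n] (z (n % k)) = (Rf u)^[k * t + (k * j (n % k) + n % k)] (z (n % k)) := congrArg (fun l => (Rf u)^[l] (z (n % k))) h2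
    _ = p := by rw [Function.iterate_add_apply, hj, h5]

theorem lo (hd : 2 ≤ d) (hcop : IsCoprime (pol u.1) (pol u.2)) (hdeg : max (pol u.1).natDegree (pol u.2).natDegree = d)
    {y : OnePoint ℂ} (hy : y ∈ JS (Rf u)) : ∃ δ0 : ℝ, 0 < δ0 ∧ ∀ r : ℝ, 0 < r → ∃ n0 : ℕ, ∀ n ≥ n0, ∀ p : OnePoint ℂ,
      ∃ z, chord y z < r ∧ δ0 ≤ chord p ((Rf u)^[n] z) := by
  have hcf : {c | IsCrit (Rf u) c}.Finite := crit_finite hcop (by rw [hdeg]; omega)
  -- a noncritical periodic point outside a finite set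
  have hex : ∀ S : Set (OnePoint ℂ), S.Finite → ∃ p, p ∉ S ∧ ¬ IsCrit (Rf u) p ∧ ∃ k : ℕ, 1 ≤ k ∧ (Rf u)^[k] p = p := by
    intro S hS
    obtain ⟨x', ⟨hx'J, -⟩, hx'⟩ := ((js_perfect hd hcop hdeg hy one_pos).sdiff (hcf.union hS)).nonempty
    obtain ⟨p, hp, k, hk, hpk⟩ := Pool.Agent.H44.NR.per_dense hd hcop hdeg hx'J
      ((hcf.union hS).isClosed.isOpen_compl.mem_nhds hx')
    exact ⟨p, fun h => hp (Or.inr h), fun h => hp (Or.inl h), k, hk, hpk⟩
  obtain ⟨p1, -, hc1, k1, hk1, hp1⟩ := hex ∅ finite_empty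
  obtain ⟨p2, h12, hc2, k2, hk2, hp2⟩ := hex {p1} (finite_singleton p1)
  have hne : p1 ≠ p2 := fun h => h12 (by rw [h]; rfl)
  have hpos : 0 < chord p1 p2 := chord_pos hne
  refine ⟨chord p1 p2 / 2, half_pos hpos, fun r hr => ?_⟩
  have hO : IsOpen {z | chord y z < r} := ch_open y r
  have hOJ : ({z | chord y z < r} ∩ JS (Rf u)).Nonempty := ⟨y, by
    show chord y y < r
    rw [chord_zero]
    exact hr, hy⟩
  obtain ⟨n1, hn1⟩ := per_hit hd hcop hdeg hc1 hk1 hp1 hO hOJ
  obtain ⟨n2, hn2⟩ := per_hit hd hcop hdeg hc2 hk2 hp2 hO hOJ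
  refine ⟨max n1 n2, fun n hn p => ?_⟩
  obtain ⟨z1, hz1, e1⟩ := hn1 n (le_trans (le_max_left _ _) hn)
  obtain ⟨z2, hz2, e2⟩ := hn2 n (le_trans (le_max_right _ _) hn)
  by_contra hcon
  push Not at hcon
  have h1 := hcon z1 hz1
  have h2 := hcon z2 hz2
  rw [e1] at h1
  rw [e2] at h2
  have h3 := Pool.Agent.H44.RC.ch_tri p1 p p2
  rw [chord_comm p1 p] at h3
  linarith

end Pool.Agent.H11.MX
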