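import Pool.Agent.H64.PE.PEF
import Pool.Agent.H64.NC.SFZ
import Pool.Agent.H64.NC.SFN
import Pool.Agent.H64.NC.PER
import Pool.Agent.H56.UE.UEX

/-!
# A critical point with an infinite orbit

`conc_fam` (H64/PE) gives a recurrent critical point in the Julia set; it is not periodic: the value of a critical point in the Julia set has no positive upper exponent (`pr_fam`, `pr_pue`), but periodic points of the Julia set have one (`per_pue`).
-/

set_option autoImplicit false

open Filter Topology Polynomial Metric Set MeasureTheory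

namespace Pool.Agent.H11.MX

open Pool.Agent.H44.Fatou (rat rat_continuous)
open Pool.Agent.H32.BT Pool.Agent.H79.Eul Pool.Agent.H79.Par
open Pool.Agent.H44.RC Pool.Agent.H47.NM Pool.Agent.H57.CF
open Pool.Agent.H35.EX (chord)

variable {d m : ℕ} {x : Em d m}

/-- critical points in the Julia set are not periodic -/
theorem crit_nper (hd : 2 ≤ d) (hm : m ≤ d) (hcop : IsCoprime (pol x.1) (pol x.2))
    (hdeg : max (pol x.1).natDegree (pol x.2).natDegree = d) (hup : ¬ UpF d m x) {c : OnePoint ℂ}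
    (hc : IsCrit (Rf (ex d m x)) c) (hcJ : c ∈ JS (Rf (ex d m x))) {n : ℕ} (hn : 0 < n) : (Rf (ex d m x))^[n] c ≠ c := by
  intro h
  have hcopv := ex_cop hcop
  have hdegv := ex_deg hdeg
  have h1 := Pool.Agent.H64.NC.pr_fam Pool.Agent.H64.NC.sphF hd hm hcop hdeg hup c hc hcJ
  have h2 := Pool.Agent.H56.UE.pr_pue hcopv (by omega) h1
  have h3 : (Rf (ex d m x))^[n] (Rf (ex d m x) c) = Rf (ex d m x) c := by
    rw [← Function.iterate_succ_apply, Function.iterate_succ_apply', h]
  exact h2 (Pool.Agent.H64.NC.per_pue hd hm hcop hdeg hup (Pool.Agent.H64.PF.js_inv hd hcopv hdegv c hcJ) hn h3)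

theorem rec_inf (hd : 2 ≤ d) (hm : m ≤ d) (hcop : IsCoprime (pol x.1) (pol x.2))
    (hdeg : max (pol x.1).natDegree (pol x.2).natDegree = d) (hup : ¬ UpF d m x) {a : OnePoint ℂ} (ha : IsCrit (Rf (ex d m x)) a)
    (haJ : a ∈ JS (Rf (ex d m x))) : ∃ r, IsCrit (Rf (ex d m x)) r ∧ (range fun n : ℕ => (Rf (ex d m x))^[n] r).Infinite := by
  obtain ⟨r, hr, hrJ, hrr, -⟩ := (Pool.Agent.H64.PE.conc_fam hd hm hcop hdeg hup).1 a ha haJ
  refine ⟨r, hr, fun hfin => ?_⟩
  have h1 : ((range fun n : ℕ => (Rf (ex d m x))^[n] r) \ {r})ᶜ ∈ 𝓝 r :=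
    (hfin.subset sdiff_subset).isClosed.isOpen_compl.mem_nhds fun h => h.2 rfl
  obtain ⟨n, hn0, hn⟩ := Filter.frequently_atTop.1 (hrr _ h1) 1
  refine crit_nper hd hm hcop hdeg hup hr hrJ (n := n) (by omega) ?_
  by_contra h2
  exact hn ⟨⟨n, rfl⟩, h2⟩

end Pool.Agent.H11.MX
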